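import Mathlib

/-!
# The point pair function is a metric on the complement of a line in three-space

For `x` off the `z`-axis let `r` be its distance from the axis, `α` its angle, and `τ = x₃ + i r` a
point of the upper half-plane.  Then `|x - y|² / (4 r r') = sinh² (ρ / 2) + sin² ((α - α') / 2)`
with the hyperbolic distance `ρ` of `τ` and `τ'`, and this is the square of `|sinh w|` for
`w = (ρ + i (α - α')) / 2`.
-/

set_option autoImplicit false

namespace Pool.Agent.Results.MP_a15e14_gt.LineComplement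

open Real Metric Set

/-- Three-dimensional Euclidean space. -/
abbrev E : Type := EuclideanSpace ℝ (Fin 3)

/-- The point pair function of a domain `G` of Euclidean space. -/
noncomputable def pointPair (G : Set E) (x y : E) : ℝ :=
  dist x y / √(dist x y ^ 2 + 4 * infDist x (frontier G) * infDist y (frontier G))

/-- The third coordinate axis. -/
def Z : Set E := {x | x 0 = 0 ∧ x 1 = 0}

/-! ### The distance to the axis -/

lemma dist_sq (x y : E) :
    dist x y ^ 2 = (x 0 - y 0) ^ 2 + (x 1 - y 1) ^ 2 + (x 2 - y 2) ^ 2 := by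
  rw [EuclideanSpace.dist_eq, Real.sq_sqrt (Finset.sum_nonneg fun i _ => sq_nonneg _),
    Fin.sum_univ_three]
  simp only [Real.dist_eq, sq_abs]

/-- The distance from the axis. -/
noncomputable def rad (x : E) : ℝ := √(x 0 ^ 2 + x 1 ^ 2)

lemma isClosed_Z : IsClosed Z := by
  have h0 : Continuous fun x : E => x 0 := by fun_prop
  have h1 : Continuous fun x : E => x 1 := by fun_prop
  exact (isClosed_eq h0 continuous_const).inter (isClosed_eq h1 continuous_const)

lemma interior_Z : interior Z = ∅ := by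
  rw [eq_empty_iff_forall_notMem]
  intro z hz
  obtain ⟨ε, hε, hball⟩ := Metric.isOpen_iff.1 isOpen_interior z hz
  let y : E := !₂[z 0 + ε / 2, z 1, z 2]
  have hy : y ∈ ball z ε := by
    rw [mem_ball]
    have h1 : dist y z ^ 2 = (ε / 2) ^ 2 := by
      rw [dist_sq]
      simp [y]
    have h2 : dist y z = ε / 2 := by
      have := (sq_eq_sq₀ dist_nonneg (by positivity)).1 h1
      exact this
    rw [h2]
    linarith
  have h1 := (interior_subset (hball hy)).1
  have h2 := (interior_subset hz : z ∈ Z).1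
  have h3 : y 0 = z 0 + ε / 2 := by simp [y]
  rw [h3, h2] at h1
  linarith

lemma frontier_G : frontier Zᶜ = Z := by
  rw [frontier_compl, isClosed_Z.frontier_eq, interior_Z, sdiff_empty]

lemma infDist_eq (x : E) : infDist x (frontier Zᶜ) = rad x := by
  rw [frontier_G]
  have hmem : (!₂[0, 0, x 2] : E) ∈ Z := by simp [Z]
  apply le_antisymm
  · refine (infDist_le_dist_of_mem hmem).trans ?_
    apply Real.le_sqrt_of_sq_le
    rw [dist_sq]
    simp
  · rw [le_infDist ⟨_, hmem⟩]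
    rintro y ⟨h0, h1⟩
    rw [rad]
    apply Real.sqrt_le_iff.2 ⟨dist_nonneg, ?_⟩
    rw [dist_sq, h0, h1]
    have := sq_nonneg (x 2 - y 2)
    linarith

/-! ### Hyperbolic and trigonometric functions -/

/-- The complex number `sinh (u + i v)`. -/
noncomputable def sn (u v : ℝ) : ℂ := ⟨sinh u * cos v, cosh u * sin v⟩

/-- The complex number `cosh (u + i v)`. -/
noncomputable def cn (u v : ℝ) : ℂ := ⟨cosh u * cos v, sinh u * sin v⟩

lemma sn_add (u v u' v' : ℝ) : sn (u + u') (v + v') = sn u v * cn u' v' + cn u v * sn u' v' := by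
  apply Complex.ext
  · simp only [sn, cn, Complex.add_re, Complex.mul_re]
    rw [sinh_add, cos_add]
    ring
  · simp only [sn, cn, Complex.add_im, Complex.mul_im]
    rw [cosh_add, sin_add]
    ring

lemma norm_sn_sq (u v : ℝ) : ‖sn u v‖ ^ 2 = sinh u ^ 2 + sin v ^ 2 := by
  rw [Complex.sq_norm, Complex.normSq_apply]
  simp only [sn]
  have h1 := cosh_sq u
  have h2 := sin_sq_add_cos_sq v
  linear_combination (sin v ^ 2) * h1 + sinh u ^ 2 * h2

lemma norm_cn_sq_le (u v : ℝ) : ‖cn u v‖ ^ 2 ≤ 1 + ‖sn u v‖ ^ 2 := by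
  rw [norm_sn_sq, Complex.sq_norm, Complex.normSq_apply]
  simp only [cn]
  have h1 := cosh_sq u
  have h2 := sin_sq_add_cos_sq v
  have h3 : cosh u * cos v * (cosh u * cos v) + sinh u * sin v * (sinh u * sin v) =
      sinh u ^ 2 + cos v ^ 2 := by
    linear_combination (cos v ^ 2) * h1 + sinh u ^ 2 * h2
  rw [h3]
  nlinarith [sq_nonneg (sin v)]

lemma norm_sn_add_le (u v u' v' : ℝ) : ‖sn (u + u') (v + v')‖ ≤
    ‖sn u v‖ * √(1 + ‖sn u' v'‖ ^ 2) + ‖sn u' v'‖ * √(1 + ‖sn u v‖ ^ 2) := by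
  rw [sn_add]
  refine (norm_add_le _ _).trans ?_
  rw [norm_mul, norm_mul]
  have h1 : ‖cn u' v'‖ ≤ √(1 + ‖sn u' v'‖ ^ 2) := Real.le_sqrt_of_sq_le (norm_cn_sq_le _ _)
  have h2 : ‖cn u v‖ ≤ √(1 + ‖sn u v‖ ^ 2) := Real.le_sqrt_of_sq_le (norm_cn_sq_le _ _)
  have h3 := mul_le_mul_of_nonneg_left h1 (norm_nonneg (sn u v))
  have h4 := mul_le_mul_of_nonneg_right h2 (norm_nonneg (sn u' v'))
  linarith

/-- The function `S ↦ S / √(1 + S²)` (the hyperbolic tangent of the inverse hyperbolic sine). -/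
lemma quot_le {A B S : ℝ} (hA : 0 ≤ A) (hB : 0 ≤ B) (hS0 : 0 ≤ S)
    (hS : S ≤ A * √(1 + B ^ 2) + B * √(1 + A ^ 2)) :
    S / √(1 + S ^ 2) ≤ A / √(1 + A ^ 2) + B / √(1 + B ^ 2) := by
  have hA2 : 0 < √(1 + A ^ 2) := Real.sqrt_pos.2 (by positivity)
  have hB2 : 0 < √(1 + B ^ 2) := Real.sqrt_pos.2 (by positivity)
  have hA3 : √(1 + A ^ 2) ^ 2 = 1 + A ^ 2 := Real.sq_sqrt (by positivity)
  have hB3 : √(1 + B ^ 2) ^ 2 = 1 + B ^ 2 := Real.sq_sqrt (by positivity)
  set a := √(1 + A ^ 2) with ha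
  set b := √(1 + B ^ 2) with hb
  set T := A * b + B * a with hT
  have hT0 : 0 ≤ T := by positivity
  have hT2 : 1 + T ^ 2 = (a * b + A * B) ^ 2 := by
    rw [hT]
    linear_combination (B ^ 2 - b ^ 2) * hA3 + (A ^ 2 - 1 - A ^ 2) * hB3
  have hT3 : √(1 + T ^ 2) = a * b + A * B := by
    rw [hT2]
    exact Real.sqrt_sq (by positivity)
  have hmono : S / √(1 + S ^ 2) ≤ T / √(1 + T ^ 2) := by
    have h1 : 0 < √(1 + S ^ 2) := Real.sqrt_pos.2 (by positivity)
    have h2 : 0 < √(1 + T ^ 2) := Real.sqrt_pos.2 (by positivity)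
    rw [div_le_div_iff₀ h1 h2]
    have h3 : S * √(1 + T ^ 2) = √(S ^ 2 * (1 + T ^ 2)) := by
      rw [Real.sqrt_mul (sq_nonneg S), Real.sqrt_sq hS0]
    have h4 : T * √(1 + S ^ 2) = √(T ^ 2 * (1 + S ^ 2)) := by
      rw [Real.sqrt_mul (sq_nonneg T), Real.sqrt_sq hT0]
    rw [h3, h4]
    apply Real.sqrt_le_sqrt
    have : S ^ 2 ≤ T ^ 2 := pow_le_pow_left₀ hS0 hS 2
    linarith
  refine hmono.trans ?_
  rw [hT3]
  have h5 : T / (a * b + A * B) ≤ T / (a * b) :=
    div_le_div_of_nonneg_left hT0 (mul_pos hA2 hB2) (by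
      have := mul_nonneg hA hB
      linarith)
  refine h5.trans (le_of_eq ?_)
  rw [hT]
  field_simp

/-! ### Cylindrical coordinates -/

/-- The angle of a point. -/
noncomputable def ang (x : E) : ℝ := Complex.arg ⟨x 0, x 1⟩

lemma rad_eq_norm (x : E) : rad x = ‖(⟨x 0, x 1⟩ : ℂ)‖ := by
  rw [rad, Complex.norm_def, Complex.normSq_apply]
  congr 1
  ring

lemma rad_mul_cos (x : E) : rad x * cos (ang x) = x 0 := by
  rw [rad_eq_norm]
  exact Complex.norm_mul_cos_arg _

lemma rad_mul_sin (x : E) : rad x * sin (ang x) = x 1 := by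
  rw [rad_eq_norm]
  exact Complex.norm_mul_sin_arg _

lemma rad_pos {x : E} (hx : x ∈ Zᶜ) : 0 < rad x := by
  rw [rad]
  apply Real.sqrt_pos.2
  by_contra hle
  push Not at hle
  apply hx
  constructor <;> nlinarith [sq_nonneg (x 0), sq_nonneg (x 1)]

/-- The point `x₃ + i r` of the upper half-plane. -/
noncomputable def tau (x : E) (hx : x ∈ Zᶜ) : UpperHalfPlane := ⟨⟨x 2, rad x⟩, rad_pos hx⟩

lemma sinh_sq (x y : E) (hx : x ∈ Zᶜ) (hy : y ∈ Zᶜ) :
    4 * (rad x * rad y) * sinh (dist (tau x hx) (tau y hy) / 2) ^ 2 =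
      (x 2 - y 2) ^ 2 + (rad x - rad y) ^ 2 := by
  have h1 := rad_pos hx
  have h2 := rad_pos hy
  rw [UpperHalfPlane.sinh_half_dist, div_pow, mul_pow]
  have h3 : √((tau x hx).im * (tau y hy).im) ^ 2 = rad x * rad y :=
    Real.sq_sqrt (mul_pos h1 h2).le
  have h4 : dist ((tau x hx : ℂ)) (tau y hy) ^ 2 = (x 2 - y 2) ^ 2 + (rad x - rad y) ^ 2 := by
    rw [Complex.dist_eq, Complex.sq_norm, Complex.normSq_apply]
    change (x 2 - y 2) * (x 2 - y 2) + (rad x - rad y) * (rad x - rad y) = _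
    ring
  rw [h3, h4]
  field_simp
  ring

/-- The basic formula. -/
lemma dist_formula (x y : E) (hx : x ∈ Zᶜ) (hy : y ∈ Zᶜ) :
    dist x y ^ 2 = 4 * (rad x * rad y) *
      ‖sn (dist (tau x hx) (tau y hy) / 2) ((ang x - ang y) / 2)‖ ^ 2 := by
  rw [norm_sn_sq, mul_add, sinh_sq, dist_sq]
  have h1 : sin ((ang x - ang y) / 2) ^ 2 = (1 - cos (ang x - ang y)) / 2 := by
    have := cos_sq' ((ang x - ang y) / 2)
    have h2 := cos_two_mul ((ang x - ang y) / 2)
    have h3 : 2 * ((ang x - ang y) / 2) = ang x - ang y := by ring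
    rw [h3] at h2
    linarith
  rw [h1, cos_sub]
  have h2 := rad_mul_cos x
  have h3 := rad_mul_sin x
  have h4 := rad_mul_cos y
  have h5 := rad_mul_sin y
  have h6 := sin_sq_add_cos_sq (ang x)
  have h7 := sin_sq_add_cos_sq (ang y)
  rw [← h2, ← h3, ← h4, ← h5]
  linear_combination (rad x ^ 2) * h6 + (rad y ^ 2) * h7

/-- The point pair function in terms of the numbers `sn`. -/
lemma pointPair_eq (x y : E) (hx : x ∈ Zᶜ) (hy : y ∈ Zᶜ) :
    pointPair Zᶜ x y =
      ‖sn (dist (tau x hx) (tau y hy) / 2) ((ang x - ang y) / 2)‖ /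
        √(1 + ‖sn (dist (tau x hx) (tau y hy) / 2) ((ang x - ang y) / 2)‖ ^ 2) := by
  have h1 := rad_pos hx
  have h2 := rad_pos hy
  have hf := dist_formula x y hx hy
  set σ := ‖sn (dist (tau x hx) (tau y hy) / 2) ((ang x - ang y) / 2)‖ with hσ
  have hσ0 : 0 ≤ σ := norm_nonneg _
  rw [pointPair, infDist_eq, infDist_eq]
  have h3 : 0 < √(4 * (rad x * rad y)) := Real.sqrt_pos.2 (by positivity)
  have h4 : dist x y = √(4 * (rad x * rad y)) * σ := by
    rw [← Real.sqrt_sq (dist_nonneg (x := x) (y := y)), hf, Real.sqrt_mul (by positivity),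
      Real.sqrt_sq hσ0]
  have h5 : √(dist x y ^ 2 + 4 * rad x * rad y) = √(4 * (rad x * rad y)) * √(1 + σ ^ 2) := by
    rw [hf, ← Real.sqrt_mul (by positivity)]
    congr 1
    ring
  rw [h5, h4, mul_div_mul_left _ _ h3.ne']

lemma norm_sn_mono {u u' v : ℝ} (h0 : 0 ≤ u) (h : u ≤ u') : ‖sn u v‖ ≤ ‖sn u' v‖ := by
  apply le_of_sq_le_sq _ (norm_nonneg _)
  rw [norm_sn_sq, norm_sn_sq]
  have h1 : sinh u ≤ sinh u' := Real.sinh_le_sinh.2 h
  have h2 : 0 ≤ sinh u := Real.sinh_nonneg_iff.2 h0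
  have := pow_le_pow_left₀ h2 h1 2
  linarith

lemma triangle (x y z : E) (hx : x ∈ Zᶜ) (hy : y ∈ Zᶜ) (hz : z ∈ Zᶜ) :
    pointPair Zᶜ x y ≤ pointPair Zᶜ x z + pointPair Zᶜ z y := by
  rw [pointPair_eq x y hx hy, pointPair_eq x z hx hz, pointPair_eq z y hz hy]
  apply quot_le (norm_nonneg _) (norm_nonneg _) (norm_nonneg _)
  refine le_trans ?_ (norm_sn_add_le _ _ _ _)
  have h1 : (ang x - ang z) / 2 + (ang z - ang y) / 2 = (ang x - ang y) / 2 := by ring
  rw [h1]
  apply norm_sn_mono (by positivity)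
  have := dist_triangle (tau x hx) (tau z hz) (tau y hy)
  linarith

/-- The point pair function of `G = ℝ³ ∖ Z`, where `Z` is the third coordinate axis, is a metric on
`G`.  The first part of the statement confirms the formula for the distance to the boundary. -/
theorem result :
    (∀ x : E, infDist x (frontier Zᶜ) = √(x 0 ^ 2 + x 1 ^ 2)) ∧
    (∀ x ∈ Zᶜ, ∀ y ∈ Zᶜ, pointPair Zᶜ x y = pointPair Zᶜ y x) ∧
    (∀ x ∈ Zᶜ, ∀ y ∈ Zᶜ, 0 ≤ pointPair Zᶜ x y ∧ (pointPair Zᶜ x y = 0 ↔ x = y)) ∧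
    (∀ x ∈ Zᶜ, ∀ y ∈ Zᶜ, ∀ z ∈ Zᶜ,
      pointPair Zᶜ x y ≤ pointPair Zᶜ x z + pointPair Zᶜ z y) := by
  refine ⟨fun x => infDist_eq x, fun x _ y _ => ?_, fun x hx y hy => ⟨?_, ?_⟩,
    fun x hx y hy z hz => triangle x y z hx hy hz⟩
  · rw [pointPair, pointPair, dist_comm, mul_right_comm]
  · exact div_nonneg dist_nonneg (Real.sqrt_nonneg _)
  · constructor
    · intro h
      rw [pointPair, div_eq_zero_iff] at h
      rcases h with h | h
      · exact dist_eq_zero.1 h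
      · rw [Real.sqrt_eq_zero', infDist_eq, infDist_eq] at h
        have h1 := mul_pos (rad_pos hx) (rad_pos hy)
        nlinarith [sq_nonneg (dist x y)]
    · rintro rfl
      rw [pointPair, dist_self, zero_div]

end Pool.Agent.Results.MP_a15e14_gt.LineComplement
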